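import Mathlib
import Pool.Agent.Helper49.Sq.Defs
import Pool.Agent.Helper49.Sq.Transfer
import Pool.Agent.Y664.CR.Curve

/-!
# Condition (3) does not imply theta-strong ellipticity on any curve with a corner

For every simple closed curve made of finitely many Lyapunov arcs which has at least one corner
(tangents `v` before and `w` after the point, different and not opposite), the constant
coefficients `a = -ε i`, `b = 1` satisfy condition (3), but neither `a I + b S` nor `a I + S b I` is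
`θ`-strongly elliptic, for all `0 < ε < ε0`, where `ε0` depends only on `v` and `w`.
-/

set_option autoImplicit false
open MeasureTheory Filter Topology Set
open Pool.Agent.Helper49.Sq.Defs

namespace Pool.Agent.Results.MP_559b1d_an.EveryCorner

open Pool.Agent.Y664.CR (IsCornerCurve HasCorner)

lemma core1 (ε : ℝ) (S A : Pool.Agent.Helper49.Sq.Core.L2 →L[ℂ] Pool.Agent.Helper49.Sq.Core.L2)
    (hA : ∀ f : Pool.Agent.Helper49.Sq.Core.L2, (A f : ℝ → ℂ) =ᵐ[mu] fun s =>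
      (-(ε : ℂ) * Complex.I) * (f : ℝ → ℂ) s + 1 * (S f : ℝ → ℂ) s) :
    ∀ F, A F = (-(ε : ℂ) * Complex.I) • F + S F := by
  intro F
  apply Lp.ext
  filter_upwards [hA F, Lp.coeFn_add ((-(ε : ℂ) * Complex.I) • F) (S F),
    Lp.coeFn_smul (-(ε : ℂ) * Complex.I) F] with s h1 h2 h3
  rw [h1, h2, Pi.add_apply, h3, Pi.smul_apply, smul_eq_mul, one_mul]

lemma core2 (ε : ℝ) (S A M : Pool.Agent.Helper49.Sq.Core.L2 →L[ℂ] Pool.Agent.Helper49.Sq.Core.L2)
    (hM : Pool.Agent.Helper49.Sq.Core.IsMulOp (fun _ => 1) M)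
    (hA : ∀ f : Pool.Agent.Helper49.Sq.Core.L2, (A f : ℝ → ℂ) =ᵐ[mu] fun s =>
      (-(ε : ℂ) * Complex.I) * (f : ℝ → ℂ) s + (S (M f) : ℝ → ℂ) s) :
    ∀ F, A F = (-(ε : ℂ) * Complex.I) • F + S F := by
  intro F
  have hMF : M F = F := by
    rw [Pool.Agent.Helper49.Sq.Extra.mulOp_const hM, one_smul]
  apply Lp.ext
  filter_upwards [hA F, Lp.coeFn_add ((-(ε : ℂ) * Complex.I) • F) (S F),
    Lp.coeFn_smul (-(ε : ℂ) * Complex.I) F] with s h1 h2 h3
  rw [h1, h2, Pi.add_apply, h3, Pi.smul_apply, smul_eq_mul, hMF]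

lemma core3 (ε : ℝ) (S : Pool.Agent.Helper49.Sq.Core.L2 →L[ℂ] Pool.Agent.Helper49.Sq.Core.L2) :
    ∃ A : Pool.Agent.Helper49.Sq.Core.L2 →L[ℂ] Pool.Agent.Helper49.Sq.Core.L2,
      ∀ F : Pool.Agent.Helper49.Sq.Core.L2, (A F : ℝ → ℂ) =ᵐ[mu] fun s =>
        (-(ε : ℂ) * Complex.I) * (F : ℝ → ℂ) s + (S F : ℝ → ℂ) s := by
  refine ⟨(-(ε : ℂ) * Complex.I) • ContinuousLinearMap.id ℂ _ + S, fun F => ?_⟩
  change (((-(ε : ℂ) * Complex.I) • F + S F : Pool.Agent.Helper49.Sq.Core.L2) : ℝ → ℂ) =ᵐ[mu] _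
  filter_upwards [Lp.coeFn_add ((-(ε : ℂ) * Complex.I) • F) (S F),
    Lp.coeFn_smul (-(ε : ℂ) * Complex.I) F] with s h2 h3
  rw [h2, Pi.add_apply, h3, Pi.smul_apply, smul_eq_mul]

/-- First part: for all unit vectors `v`, `w`, different and not opposite, there is an `ε0 > 0` such that for every
simple closed curve `γ` (arc length parameter, length 4, finitely many Lyapunov arcs) which has at the base point a
corner with the one-sided tangents `v` and `w`, and its Cauchy singular integral operator `S`, the constant coefficients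
`a = -ε i` and `b = 1`, `0 < ε < ε0`, satisfy condition (3) while neither `a I + b S` nor `a I + S b I` is
`θ`-strongly elliptic. Second part: the boundary of the unit square is such a curve, and it has a Cauchy operator. -/
theorem result :
    (∀ v w : ℂ, ‖v‖ = 1 → ‖w‖ = 1 → v ≠ w → v ≠ -w → ∃ ε0 : ℝ, 0 < ε0 ∧
      ∀ γ : ℝ → ℂ, IsCornerCurve γ → HasCorner γ v w → ∀ S : Op, IsCauchyOp γ S →
        ∀ ε : ℝ, 0 < ε → ε < ε0 →
          ∃ a b : ℝ → ℂ, (∀ s, a s = -(ε : ℂ) * Complex.I) ∧ (∀ s, b s = 1) ∧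
            IsPC a ∧ IsPC b ∧ Condition3 a b ∧
            (∃ A : Op, IsAIbS a b S A) ∧ (∃ A : Op, IsAISb a b S A) ∧
            (∀ A : Op, IsAIbS a b S A → ¬ ThetaStronglyElliptic A) ∧
            (∀ A : Op, IsAISb a b S A → ¬ ThetaStronglyElliptic A)) ∧
    (∃ γ : ℝ → ℂ, IsUnitSquare γ ∧ IsCornerCurve γ ∧ HasCorner γ (-Complex.I) 1 ∧
      ∃ S : Op, IsCauchyOp γ S ∧ ∀ S' : Op, IsCauchyOp γ S' → S' = S) := by
  constructor
  · intro v w hv hw hne hnn
    obtain ⟨ε0, hε0, hall⟩ := Pool.Agent.Y664.CR.not_theta v w hv hw hne hnn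
    refine ⟨ε0, hε0, fun γ hγ hc S hS ε hε hε1 => ?_⟩
    obtain ⟨-, δ, α, C, hcor⟩ := hγ.cor hc
    refine ⟨fun _ => -(ε : ℂ) * Complex.I, fun _ => 1, fun _ => rfl, fun _ => rfl,
      Pool.Agent.Helper49.Sq.Extra.isPC_const _, Pool.Agent.Helper49.Sq.Extra.isPC_const _,
      Pool.Agent.Helper49.Sq.Extra.cond3 ε hε.ne', ?_, ?_, ?_, ?_⟩
    · obtain ⟨A, hA⟩ := core3 ε S
      refine ⟨A, fun F => ?_⟩
      simp only [one_mul]
      exact hA F
    · obtain ⟨A, hA⟩ := core3 ε S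
      refine ⟨A, ContinuousLinearMap.id ℂ _, ?_, fun F => hA F⟩
      intro F
      simp only [one_mul]
      exact Filter.EventuallyEq.rfl
    · intro A hA hθ
      exact hall γ δ α C hcor S hS ε hε hε1 A (core1 ε S A fun F => hA F)
        (Pool.Agent.Helper49.Sq.Transfer.theta A hθ)
    · intro A hA hθ
      obtain ⟨M, hM, hA'⟩ := hA
      exact hall γ δ α C hcor S hS ε hε hε1 A (core2 ε S A M hM fun F => hA' F)
        (Pool.Agent.Helper49.Sq.Transfer.theta A hθ)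
  · obtain ⟨S, hS⟩ := Pool.Agent.Helper49.Sq.Op4.exists_cauchyOp Pool.Agent.Helper49.Sq.Op.sq_isUnitSquare
    exact ⟨_, Pool.Agent.Helper49.Sq.Op.sq_isUnitSquare,
      Pool.Agent.Y664.CR.IsUnitSquare.curve Pool.Agent.Helper49.Sq.Op.sq_isUnitSquare,
      Pool.Agent.Y664.CR.IsUnitSquare.corner Pool.Agent.Helper49.Sq.Op.sq_isUnitSquare,
      S, hS, fun S' hS' => Pool.Agent.Helper49.Sq.Extra.cauchyOp_unique hS hS'⟩

end Pool.Agent.Results.MP_559b1d_an.EveryCorner
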